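import Pool.Agent.Lib.MP_37c7bf_co_h91dm.Bridge
import Pool.Agent.Lib.MP_37c7bf_co_CW.Defs

/-! # A graph is generically rigid if and only if its sparse graph is -/

set_option autoImplicit false

open scoped Matrix
open MeasureTheory Function

namespace Pool.Agent.Lib.MP_37c7bf_co_MW

open Pool.Agent.MP_37c7bf_co_Dense
open Pool.Agent.Lib.MP_37c7bf_co_CW (IsBase HRel SeedR)

/-- A triangle moves as a rigid body. -/
theorem exists_screw_of_triangle {a b c d : Pt} (h : tri (b - a) (c - a) (d - a) ≠ 0)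
    {ua ub uc : Pt} (hab : (a - b) ⬝ᵥ (ua - ub) = 0) (hac : (a - c) ⬝ᵥ (ua - uc) = 0)
    (hbc : (b - c) ⬝ᵥ (ub - uc) = 0) :
    ∃ m : Pt × Pt, ua = vel m a ∧ ub = vel m b ∧ uc = vel m c := by
  set B := b - a with hB
  set C := c - a with hC
  set x := ub - ua with hx
  set y := uc - ua with hy
  set N := B ⨯₃ C with hN
  have hN0 : N ⬝ᵥ N ≠ 0 := by
    apply dot_self_ne
    intro h0
    apply h
    have : tri B C (d - a) = (d - a) ⬝ᵥ N := by
      rw [hN]
      exact (triple_product_permutation (d - a) B C).symm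
    rw [this, h0, dotProduct_zero]
  have e1 : B ⬝ᵥ x = 0 := by
    rw [hB, hx]
    simp only [dot3, Pi.sub_apply] at hab ⊢
    linarith
  have e2 : C ⬝ᵥ y = 0 := by
    rw [hC, hy]
    simp only [dot3, Pi.sub_apply] at hac ⊢
    linarith
  have e3 : C ⬝ᵥ x + B ⬝ᵥ y = 0 := by
    have h1 : (b - c) ⬝ᵥ (ub - uc) = B ⬝ᵥ x + C ⬝ᵥ y - (C ⬝ᵥ x + B ⬝ᵥ y) := by
      rw [hB, hC, hx, hy]
      simp only [dot3, Pi.sub_apply]
      ring
    rw [hbc, e1, e2] at h1
    linarith
  -- the rotation vector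
  set r : Pt := (1 / (N ⬝ᵥ N)) • ((y ⬝ᵥ N) • B - (x ⬝ᵥ N) • C + (C ⬝ᵥ x) • N) with hr
  have hN0' : N 0 = B 1 * C 2 - B 2 * C 1 := by rw [hN]; simp [cross_apply]
  have hN1' : N 1 = B 2 * C 0 - B 0 * C 2 := by rw [hN]; simp [cross_apply]
  have hN2' : N 2 = B 0 * C 1 - B 1 * C 0 := by rw [hN]; simp [cross_apply]
  have hrB : r ⨯₃ B = x := by
    have : (N ⬝ᵥ N) • (r ⨯₃ B) = (N ⬝ᵥ N) • x := by
      rw [← LinearMap.smul_apply, ← map_smul, hr, smul_smul, mul_one_div_cancel hN0, one_smul]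
      rw [dot3] at e1
      ext i
      fin_cases i
      · simp [cross_apply, dot3, hN0', hN1', hN2']
        linear_combination (C 2 * (B 2 * C 0 - B 0 * C 2) - C 1 * (B 0 * C 1 - B 1 * C 0)) * e1
      · simp [cross_apply, dot3, hN0', hN1', hN2']
        linear_combination (C 0 * (B 0 * C 1 - B 1 * C 0) - C 2 * (B 1 * C 2 - B 2 * C 1)) * e1
      · simp [cross_apply, dot3, hN0', hN1', hN2']
        linear_combination (C 1 * (B 1 * C 2 - B 2 * C 1) - C 0 * (B 2 * C 0 - B 0 * C 2)) * e1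
    exact smul_right_injective _ hN0 this
  have hrC : r ⨯₃ C = y := by
    have : (N ⬝ᵥ N) • (r ⨯₃ C) = (N ⬝ᵥ N) • y := by
      rw [← LinearMap.smul_apply, ← map_smul, hr, smul_smul, mul_one_div_cancel hN0, one_smul]
      rw [dot3] at e2
      rw [dot3, dot3] at e3
      ext i
      fin_cases i
      · simp [cross_apply, dot3, hN0', hN1', hN2']
        linear_combination (C 2 * (B 2 * C 0 - B 0 * C 2) - C 1 * (B 0 * C 1 - B 1 * C 0)) * e3
          - ((B 2 * C 0 - B 0 * C 2) * B 2 - (B 0 * C 1 - B 1 * C 0) * B 1) * e2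
      · simp [cross_apply, dot3, hN0', hN1', hN2']
        linear_combination (C 0 * (B 0 * C 1 - B 1 * C 0) - C 2 * (B 1 * C 2 - B 2 * C 1)) * e3
          - ((B 0 * C 1 - B 1 * C 0) * B 0 - (B 1 * C 2 - B 2 * C 1) * B 2) * e2
      · simp [cross_apply, dot3, hN0', hN1', hN2']
        linear_combination (C 1 * (B 1 * C 2 - B 2 * C 1) - C 0 * (B 2 * C 0 - B 0 * C 2)) * e3
          - ((B 1 * C 2 - B 2 * C 1) * B 1 - (B 2 * C 0 - B 0 * C 2) * B 0) * e2
    exact smul_right_injective _ hN0 this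
  refine ⟨(r, ua - r ⨯₃ a), ?_, ?_, ?_⟩
  · simp [vel]
  · have : vel (r, ua - r ⨯₃ a) b = r ⨯₃ B + ua := by
      rw [hB, map_sub]; simp only [vel]; abel
    rw [this, hrB, hx]; abel
  · have : vel (r, ua - r ⨯₃ a) c = r ⨯₃ C + ua := by
      rw [hC, map_sub]; simp only [vel]; abel
    rw [this, hrC, hy]; abel

section

variable {V : Type} {G : SimpleGraph V}

variable [Fintype V] [LinearOrder V]

/-- Every cluster has three base vertices. -/
theorem exists_base {s : Fin 14 → V} (hs : SeedR G.Adj s) :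
    ∃ b : Fin 3 → V, Injective b ∧ ∀ l, IsBase (InW G.Adj) s (b l) := by
  classical
  obtain ⟨B, hB⟩ : ∃ B : Finset V, ∀ v, v ∈ B ↔ IsBase (InW G.Adj) s v :=
    ⟨Finset.univ.filter fun v => IsBase (InW G.Adj) s v, fun v => by simp⟩
  have hcard : 3 ≤ B.card := by
    by_contra hc
    push Not at hc
    have hex : ∃ x, InW G.Adj s x ∧ x ∉ B := by
      by_contra hcon
      push Not at hcon
      have h1 : (Finset.univ.image s) ⊆ B := by
        intro v hv
        obtain ⟨i, -, rfl⟩ := Finset.mem_image.1 hv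
        exact hcon _ (inW_seed hs i)
      have h2 := Finset.card_le_card h1
      rw [Finset.card_image_of_injective _ hs.1, Finset.card_univ, Fintype.card_fin] at h2
      omega
    obtain ⟨x, ⟨hx1, hx2⟩, hmin⟩ : ∃ x, (InW G.Adj s x ∧ x ∉ B) ∧
        ∀ y, (InW G.Adj s y ∧ y ∉ B) → ¬ y < x := by
      obtain ⟨S, hS⟩ : ∃ S : Finset V, ∀ v, v ∈ S ↔ (InW G.Adj s v ∧ v ∉ B) :=
        ⟨Finset.univ.filter fun v => InW G.Adj s v ∧ v ∉ B, fun v => by simp⟩
      have hne : S.Nonempty := by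
        obtain ⟨x, hx⟩ := hex
        exact ⟨x, (hS x).2 hx⟩
      exact ⟨S.min' hne, (hS _).1 (S.min'_mem hne), fun y hy => not_lt.2 (S.min'_le y ((hS y).2 hy))⟩
    have hnb : ¬ IsBase (InW G.Adj) s x := fun h => hx2 ((hB x).2 h)
    unfold IsBase at hnb
    push Not at hnb
    obtain ⟨y, hy, hyl⟩ := hnb hx1
    have h1 : (Finset.univ.image y) ⊆ B := by
      intro v hv
      obtain ⟨l, -, rfl⟩ := Finset.mem_image.1 hv
      by_contra hcon
      exact hmin _ ⟨(hyl l).1, hcon⟩ (hyl l).2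
    have h2 := Finset.card_le_card h1
    rw [Finset.card_image_of_injective _ hy, Finset.card_univ, Fintype.card_fin] at h2
    omega
  obtain ⟨T, hT, hT3⟩ := Finset.exists_subset_card_eq hcard
  refine ⟨fun l => T.equivFin.symm (l.cast hT3.symm), ?_, fun l => ?_⟩
  · intro l l' h
    have := T.equivFin.symm.injective (Subtype.ext h)
    simpa [Fin.ext_iff] using this
  · exact (hB _).1 (hT (T.equivFin.symm (l.cast hT3.symm)).2)

end

variable {V : Type} [Fintype V] [LinearOrder V] {G : SimpleGraph V} {p : V → Pt}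

/-- The seed moves as one rigid body. -/
theorem seed_vel (hp : Good p) {u : V → Pt} (hu : IsInfMotion G p u) {s : Fin 14 → V}
    (hs : SeedR G.Adj s) : ∃ m : Pt × Pt, ∀ i, u (s i) = vel m (p (s i)) := by
  have hf : Injective (fun i : Fin 10 => s (Fin.castAdd 4 i)) := fun i j h =>
    Fin.castAdd_injective 10 4 (hs.1 h)
  have hg : Injective (fun j : Fin 4 => s (Fin.natAdd 10 j)) := fun i j h =>
    Fin.natAdd_injective 4 10 (hs.1 h)
  obtain ⟨m, hm⟩ := rig_K104 (G := G) hp hf hg (fun i j => hs.2 _ _ (by simp) (by simp)) u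
    (fun v _ w _ h => hu v w h)
  refine ⟨m, fun i => ?_⟩
  refine Fin.addCases (m := 10) (n := 4) (motive := fun i => u (s i) = vel m (p (s i)))
    (fun i => ?_) (fun j => ?_) i
  · exact hm _ (Finset.mem_union_left _ (Finset.mem_image_of_mem _ (Finset.mem_univ i)))
  · exact hm _ (Finset.mem_union_right _ (Finset.mem_image_of_mem _ (Finset.mem_univ j)))

/-- Two screws agreeing at three vertices are equal. -/
theorem eq_of_three (hp : Good p) (hV : 4 ≤ Fintype.card V) {m m' : Pt × Pt} {x : Fin 3 → V}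
    (hx : Injective x) (h : ∀ l, vel m (p (x l)) = vel m' (p (x l))) : m = m' := by
  apply sub_eq_zero.1
  apply hp.screw_eq_zero hV (a := x 0) (b := x 1) (c := x 2)
  · exact fun h => absurd (hx h) (by decide)
  · exact fun h => absurd (hx h) (by decide)
  · exact fun h => absurd (hx h) (by decide)
  · rw [vel_sub_screw, h 0, sub_self]
  · rw [vel_sub_screw, h 1, sub_self]
  · rw [vel_sub_screw, h 2, sub_self]

/-- The cluster of a seed moves as one rigid body. -/
theorem inW_vel (hp : Good p) (hV : 4 ≤ Fintype.card V) {u : V → Pt} (hu : IsInfMotion G p u)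
    {s : Fin 14 → V} (hs : SeedR G.Adj s) :
    ∃ m : Pt × Pt, ∀ v, InW G.Adj s v → u v = vel m (p v) := by
  choose! m hm using fun (s : Fin 14 → V) (h : SeedR G.Adj s) => seed_vel hp hu h
  refine ⟨m s, fun v hv => ?_⟩
  refine InW.ind (R := fun s v => u v = vel (m s) (p v)) ?_ hv
  rintro s v ⟨hs, ⟨i, rfl⟩ | ⟨a, ha, hav⟩ | ⟨t, ⟨x, hx, hxst⟩, hv⟩⟩
  · exact hm s hs i
  · have hne : ∀ i j, i ≠ j → a i ≠ a j := fun i j hij h => hij (ha h)
    exact hp.vel_of_three (hav 0).2.ne (hav 1).2.ne (hav 2).2.ne (hne 0 1 (by decide))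
      (hne 0 2 (by decide)) (hne 1 2 (by decide)) (hav 0).1.2 (hav 1).1.2 (hav 2).1.2
      (hu _ _ (hav 0).2) (hu _ _ (hav 1).2) (hu _ _ (hav 2).2)
  · have hmt : m s = m t := eq_of_three hp hV hx fun l => by
      have h1 : u (x l) = vel (m s) (p (x l)) := (hxst l).1.2
      have h2 : u (x l) = vel (m t) (p (x l)) := (hxst l).2.2
      rw [← h1, h2]
    have h2 : u v = vel (m t) (p v) := hv.2
    change u v = vel (m s) (p v)
    rw [h2, hmt]

/-- Motions of the sparse graph move each cluster as one rigid body. -/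
theorem inW_vel_HW (hp : Good p) (hV : 4 ≤ Fintype.card V) {u : V → Pt}
    (hu : IsInfMotion (HW G) p u) {s : Fin 14 → V}
    (hs : SeedR G.Adj s) :
    ∃ m : Pt × Pt, ∀ v, InW G.Adj s v → u v = vel m (p v) := by
  obtain ⟨b, hb, hbase⟩ := exists_base hs
  have hadj : ∀ v, InW G.Adj s v → ∀ l, v ≠ b l → (HW G).Adj v (b l) := fun v hv l hne =>
    ⟨hne, Or.inr ⟨s, hv, (hbase l).1, Or.inr (hbase l)⟩⟩
  have hbe : ∀ i j, i ≠ j → b i ≠ b j := fun i j hij h => hij (hb h)
  obtain ⟨d, hd⟩ : ∃ d, d ∉ (Finset.univ.image b : Finset V) := by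
    by_contra hcon
    push Not at hcon
    have h1 : Fintype.card V ≤ (Finset.univ.image b).card := by
      rw [← Finset.card_univ]
      exact Finset.card_le_card fun x _ => hcon x
    rw [Finset.card_image_of_injective _ hb, Finset.card_univ, Fintype.card_fin] at h1
    omega
  have hd' : ∀ l, b l ≠ d := fun l h => hd (h ▸ Finset.mem_image_of_mem _ (Finset.mem_univ l))
  have htri := hp.c1 (b 0) (b 1) (b 2) d (hbe 0 1 (by decide)) (hbe 0 2 (by decide)) (hd' 0)
    (hbe 1 2 (by decide)) (hd' 1) (hd' 2)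
  have hbb : ∀ i j, i ≠ j → (p (b i) - p (b j)) ⬝ᵥ (u (b i) - u (b j)) = 0 := fun i j hij =>
    hu _ _ (hadj _ (hbase i).1 j (hbe i j hij))
  obtain ⟨m, h0, h1, h2⟩ := exists_screw_of_triangle htri (hbb 0 1 (by decide))
    (hbb 0 2 (by decide)) (hbb 1 2 (by decide))
  have hbm : ∀ l, u (b l) = vel m (p (b l)) := by
    intro l
    fin_cases l
    · exact h0
    · exact h1
    · exact h2
  refine ⟨m, fun v hv => ?_⟩
  by_cases h : ∃ l, v = b l
  · obtain ⟨l, rfl⟩ := h
    exact hbm l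
  · push Not at h
    have hne : ∀ i j, i ≠ j → b i ≠ b j := fun i j hij h => hij (hb h)
    exact hp.vel_of_three (h 0) (h 1) (h 2) (hne 0 1 (by decide)) (hne 0 2 (by decide))
      (hne 1 2 (by decide)) (hbm 0) (hbm 1) (hbm 2) (hu _ _ (hadj v hv 0 (h 0)))
      (hu _ _ (hadj v hv 1 (h 1))) (hu _ _ (hadj v hv 2 (h 2)))

/-- In general position both graphs have the same infinitesimal motions. -/
theorem motion_iff (hp : Good p) (hV : 4 ≤ Fintype.card V) (u : V → Pt) :
    IsInfMotion G p u ↔ IsInfMotion (HW G) p u := by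
  constructor
  · rintro hu x y ⟨hxy, ⟨h, _⟩ | ⟨s, hx, hy, _⟩⟩
    · exact hu x y h
    · obtain ⟨m, hm⟩ := inW_vel hp hV hu hx.seed
      rw [hm x hx, hm y hy]
      exact dot_vel_sub _ _ _
  · intro hu x y hxy
    by_cases h : ∃ s, InW G.Adj s x ∧ InW G.Adj s y
    · obtain ⟨s, hx, hy⟩ := h
      obtain ⟨m, hm⟩ := inW_vel_HW hp hV hu hx.seed
      rw [hm x hx, hm y hy]
      exact dot_vel_sub _ _ _
    · exact hu x y ⟨hxy.ne, Or.inl ⟨hxy, h⟩⟩

theorem infRigid_iff_HW (hp : Good p) (hV : 4 ≤ Fintype.card V) :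
    InfRigid G p ↔ InfRigid (HW G) p :=
  ⟨fun h u hu => h u ((motion_iff hp hV u).2 hu), fun h u hu => h u ((motion_iff hp hV u).1 hu)⟩

/-- **A graph is generically rigid if and only if its sparse graph is.** -/
theorem rigid_iff_HW {n : ℕ} (hn : 4 ≤ n) (G : SimpleGraph (Fin n)) :
    Pool.Agent.H26R.GenericallyRigid G ↔ Pool.Agent.H26R.GenericallyRigid (HW G) := by
  have hV : 4 ≤ Fintype.card (Fin n) := by rw [Fintype.card_fin]; exact hn
  rw [MP_37c7bf_co_h91dm.genericallyRigid_iff_dense hV,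
    MP_37c7bf_co_h91dm.genericallyRigid_iff_dense hV]
  unfold GenericallyRigid
  constructor
  · intro h
    filter_upwards [h, ae_good (V := Fin n)] with p h1 hp
    exact (infRigid_iff_HW hp hV).1 h1
  · intro h
    filter_upwards [h, ae_good (V := Fin n)] with p h1 hp
    exact (infRigid_iff_HW hp hV).2 h1

end Pool.Agent.Lib.MP_37c7bf_co_MW
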