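import Mathlib

/-! # Mim-width (maximum induced matching width) -/

set_option autoImplicit false

namespace Pool.Agent.Lib.MP_37c7bf_co_MW

/-- Full binary trees with leaves in `V`. -/
inductive BTree (V : Type) : Type
  | leaf (v : V)
  | node (l r : BTree V)

namespace BTree

variable {V : Type}

/-- The list of leaves. -/
def leaves : BTree V → List V
  | leaf v => [v]
  | node l r => l.leaves ++ r.leaves

/-- The property `P` holds for the set of leaves below each node. -/
def AllCuts (P : Set V → Prop) : BTree V → Prop
  | leaf v => P {v}
  | node l r => P {v | v ∈ (node l r).leaves} ∧ l.AllCuts P ∧ r.AllCuts P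

end BTree

/-- Every induced matching of the bipartite graph formed by the edges of `G` between `A` and its
complement has at most `k` edges: if `a i ∈ A` and `b i ∉ A` for `i < m`, and `a i` and `b j` are
adjacent exactly if `i = j`, then `m ≤ k`. -/
def CutMimLE {V : Type} (G : SimpleGraph V) (k : ℕ) (A : Set V) : Prop :=
  ∀ (m : ℕ) (a b : Fin m → V), (∀ i, a i ∈ A ∧ b i ∉ A) →
    (∀ i j, G.Adj (a i) (b j) ↔ i = j) → m ≤ k

/-- `G` has mim-width at most `k`: there is a full binary tree whose leaves are the vertices of
`G`, each occurring exactly once, such that for each node the cut between the leaves below it and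
the other vertices has no induced matching with more than `k` edges. -/
def MimwidthLE {V : Type} (G : SimpleGraph V) (k : ℕ) : Prop :=
  ∃ T : BTree V, T.leaves.Nodup ∧ (∀ v, v ∈ T.leaves) ∧ T.AllCuts (CutMimLE G k)

end Pool.Agent.Lib.MP_37c7bf_co_MW
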